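import Pool.Agent.MWK.Stmts

/-!
# Row MVL of squad MWK
-/

namespace Pool.Agent.MWK.H13

open Pool.Agent.Helper14_MV Pool.Agent.Helper2_MV
open Pool.Agent.MWK

theorem mvl (fre : FreStmt) (okm : OkmStmt) : MvlStmt := by
  intro θ hK m hWB P b S qs R hlen hOk
  -- (1)
  have hOk1 : Ok (P ++ [b, b] ++ (S ++ [b])) (S ++ [b]) qs := by
    refine okm qs _ _ _ _ hOk ?_ (fun z hz => hz)
    intro l
    simp only [List.count_append, List.count_cons, List.count_nil]
    omega
  have h1 := hWB P [b, b] (S ++ [b]) qs R hlen (by
    intro l hl
    have hlb : l = b := by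
      simp only [List.mem_cons, List.not_mem_nil, or_false] at hl
      rcases hl with h | h <;> exact h
    subst hlb
    simp only [List.count_append, List.count_cons_self, List.count_nil]
    omega) hOk1
  -- (2)
  have hOk2 : Ok (P ++ [b] ++ [b] ++ (S ++ [b])) (S ++ [b]) qs := by
    refine okm qs _ _ _ _ hOk ?_ (fun z hz => hz)
    intro l
    simp only [List.count_append, List.count_cons, List.count_nil]
    omega
  have h2 := hWB (P ++ [b]) [b] (S ++ [b]) qs R hlen (by
    intro l hl
    have hlb : l = b := by
      simpa only [List.mem_cons, List.not_mem_nil, or_false] using hl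
    subst hlb
    simp only [List.count_append, List.count_cons_self, List.count_nil]
    omega) hOk2
  have h3 := fre θ hK (P ++ S ++ [b, b]) [b] (qs.flatten ++ R) (by
    intro l hl
    have hlb : l = b := by
      simpa only [List.mem_cons, List.not_mem_nil, or_false] using hl
    subst hlb
    simp only [List.count_append, List.count_cons_self, List.count_nil]
    omega)
  have h4 := fre θ hK (P ++ [b] ++ S ++ [b]) [b] (qs.flatten ++ R) (by
    intro l hl
    have hlb : l = b := by
      simpa only [List.mem_cons, List.not_mem_nil, or_false] using hl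
    subst hlb
    simp only [List.count_append, List.count_cons_self, List.count_nil]
    omega)
  simp only [List.append_assoc, List.cons_append, List.nil_append] at h1 h2 h3 h4 ⊢
  exact θ.trans (θ.trans h4.symm h2.symm) (θ.trans h1 h3)

end Pool.Agent.MWK.H13
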