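import Pool.Agent.MWK.Stmts

/-!
# Row SEG of squad MWK: segments
-/

namespace Pool.Agent.MWK.H13

open Pool.Agent.Helper14_MV Pool.Agent.Helper2_MV
open Pool.Agent.MWK

theorem seg (cut : CutStmt) (twc : TwcStmt) : SegStmt := by
  intro m
  induction m with
  | zero =>
    intro w A Q S _ _
    refine ⟨[], Q, rfl, rfl, trivial, ?_⟩
    intro j hj
    exact absurd hj (Nat.not_lt_zero j)
  | succ m ih =>
    intro w A Q S hw hS
    obtain ⟨q, Q1, hQ, hq, hQ1⟩ := cut (Dp m w) A Q
    have hw1 : w = A ++ q ++ Q1 := by
      rw [hw, hQ, List.append_assoc]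
    have T := twc w A q Q1 m hw1 hQ1
    obtain ⟨qs, R, hlen, hQs, hOk, hcl⟩ := ih w (A ++ q) Q1 q hw1 (by
      intro z hz
      by_cases hzA : z ∈ A
      · left
        have h1 := List.count_pos_iff.2 hzA
        have h2 := List.count_pos_iff.2 hz
        rw [List.count_append]
        omega
      · right
        exact ⟨List.mem_append_right _ hz, hq z hz hzA⟩)
    refine ⟨q :: qs, R, ?_, ?_, ?_, ?_⟩
    · rw [List.length_cons, hlen]
    · rw [List.flatten_cons, List.append_assoc, ← hQs, hQ]
    · refine ⟨?_, hOk⟩
      intro z hz
      rcases hS z hz with h | ⟨h1, h2⟩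
      · rw [List.count_append]
        omega
      · exact T z (List.mem_append_left _ h1) h2
    · intro j hj l hl hD
      cases j with
      | zero =>
        have h := T l (List.mem_append_left _ hl) (by simpa only [Nat.sub_zero] using hD)
        simpa only [List.take_succ_cons, List.take_zero, List.flatten_cons, List.flatten_nil,
          List.append_nil, Nat.zero_add] using h
      | succ j =>
        have hD' : ¬ Dp (m - j) w l := by
          have e : m + 1 - (j + 1) = m - j := by omega
          rwa [e] at hD
        have h := hcl j (by omega) l (List.mem_append_left _ hl) hD'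
        rw [List.take_succ_cons, List.flatten_cons, ← List.append_assoc]
        exact h

end Pool.Agent.MWK.H13
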